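import Pool.Agent.V5helper80.KlamD

/-!
# Klamkin's question on perimeter-bisecting points: the answer is yes

Let `C` be the boundary of a compact convex set `K` of the plane with nonempty interior, and let
`O` be a point such that every line through `O` bisects the length of `C`. Then `C` is centrally
symmetric with respect to `O`.

Proof. The point `O` is an interior point of `K`: otherwise there is a line through `O` with no
point of `C` on one side. Let `O = 0`. Opposite sectors cut from `C` arcs of equal length, that is,
`C` and its reflection `C' = - C` have arcs of equal length in each sector. Suppose that `K` is not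
symmetric, and let `l > 1` be the smallest number with `K ⊆ - l K`. The boundaries of `K` and
`- l K` touch at a point of some ray `R` from `0`. On each side of `R` the length of `C` in a thin
sector of angle `t` at `R` is `t r / sin φ + o(t)`, where `r` is the distance of the point of `C`
on `R` from `0`, and `φ` is the angle between `R` and the one-sided tangent of `C`. Comparing `C`
with `C'` gives `sin φ = l sin φ' > sin φ'`, and `φ ≤ φ'` by the inclusion `K ⊆ - l K`
(`φ, φ'` measured towards `0`), hence `φ' > π / 2`. As this holds on both sides of `R`, the angle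
of the convex curve `C'` at its point on `R` is larger than `π`, a contradiction.
-/

set_option autoImplicit false
open MeasureTheory Set Metric
open scoped RealInnerProductSpace ENNReal

namespace Pool.Agent.Results.MP_7f2f72_gt.ConvexCurves

/-- The line `{x | ⟪x - O, n⟫ = 0}` through `O` with normal vector `n` bisects the perimeter of the
curve `C`: the parts of `C` in the two open half-planes bounded by the line have equal length
(`μH[1]` is the one-dimensional Hausdorff measure). -/
def BisectsPerimeter (C : Set (EuclideanSpace ℝ (Fin 2))) (O n : EuclideanSpace ℝ (Fin 2)) : Prop :=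
  μH[1] (C ∩ {x | 0 < ⟪x - O, n⟫}) = μH[1] (C ∩ {x | ⟪x - O, n⟫ < 0})

/-- **Klamkin's question, answer yes.** If `C` is a convex closed curve (the boundary of a compact
convex set `K` of the plane with nonempty interior) and every line through the point `O` bisects
the perimeter of `C`, then `C` is centrally symmetric with respect to `O`. -/
theorem result (K : Set (EuclideanSpace ℝ (Fin 2))) (hK : IsCompact K) (hc : Convex ℝ K)
    (hi : (interior K).Nonempty) (O : EuclideanSpace ℝ (Fin 2))
    (h : ∀ n : EuclideanSpace ℝ (Fin 2), n ≠ 0 → BisectsPerimeter (frontier K) O n) :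
    (fun x => (2 : ℝ) • O - x) '' frontier K = frontier K := by
  -- move `O` to the origin
  let e : EuclideanSpace ℝ (Fin 2) ≃ᵢ EuclideanSpace ℝ (Fin 2) := IsometryEquiv.addRight O
  have he : ∀ x, e x = x + O := fun _ => rfl
  set K₀ : Set (EuclideanSpace ℝ (Fin 2)) := e ⁻¹' K with hK₀
  have hf : frontier K₀ = e ⁻¹' frontier K := (e.toHomeomorph.preimage_frontier K).symm
  have hint : interior K₀ = e ⁻¹' interior K := (e.toHomeomorph.preimage_interior K).symm
  have hK0c : IsCompact K₀ := e.toHomeomorph.isCompact_preimage.2 hK
  have hK0conv : Convex ℝ K₀ := hc.translate_preimage_left O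
  have hK0int : (interior K₀).Nonempty := by
    obtain ⟨z, hz⟩ := hi
    refine ⟨e.symm z, ?_⟩
    rw [hint, mem_preimage, e.apply_symm_apply]
    exact hz
  have hbis : ∀ n : EuclideanSpace ℝ (Fin 2), n ≠ 0 →
      μH[1] (frontier K₀ ∩ {x | 0 < ⟪x, n⟫}) = μH[1] (frontier K₀ ∩ {x | ⟪x, n⟫ < 0}) := by
    intro n hn
    have h1 := h n hn
    unfold BisectsPerimeter at h1
    rw [← e.hausdorffMeasure_preimage, ← e.hausdorffMeasure_preimage 1
      (frontier K ∩ {x | ⟪x - O, n⟫ < 0})] at h1
    have e1 : e ⁻¹' (frontier K ∩ {x | 0 < ⟪x - O, n⟫}) = frontier K₀ ∩ {x | 0 < ⟪x, n⟫} := by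
      rw [hf]; ext x; simp [he]
    have e2 : e ⁻¹' (frontier K ∩ {x | ⟪x - O, n⟫ < 0}) = frontier K₀ ∩ {x | ⟪x, n⟫ < 0} := by
      rw [hf]; ext x; simp [he]
    rw [e1, e2] at h1
    exact h1
  have h0 : (0 : EuclideanSpace ℝ (Fin 2)) ∈ interior K₀ :=
    V5helper80.Klam.mem_interior_of_bisects hK0c hK0conv hK0int hbis
  have hn0 : K₀ ∈ nhds (0 : EuclideanSpace ℝ (Fin 2)) := mem_interior_iff_mem_nhds.1 h0
  have hsym := V5helper80.Klam.core hK0conv hn0 hK0c.isBounded hbis
  have hfs : ∀ x, x ∈ frontier K₀ → -x ∈ frontier K₀ := by
    intro x hx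
    rw [← gauge_eq_one_iff_mem_frontier hK0conv hn0] at hx ⊢
    rw [hsym, hx]
  have hgo : ∀ x, x ∈ frontier K → (2 : ℝ) • O - x ∈ frontier K := by
    intro x hx
    have h1 : x - O ∈ frontier K₀ := by
      rw [hf, mem_preimage, he, sub_add_cancel]; exact hx
    have h2 := hfs _ h1
    rw [hf, mem_preimage, he] at h2
    have e3 : -(x - O) + O = (2 : ℝ) • O - x := by module
    rwa [e3] at h2
  ext x
  constructor
  · rintro ⟨y, hy, rfl⟩
    exact hgo y hy
  · intro hx
    refine ⟨(2 : ℝ) • O - x, hgo x hx, ?_⟩
    dsimp only
    rw [sub_sub_cancel]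

end Pool.Agent.Results.MP_7f2f72_gt.ConvexCurves
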